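import Pool.Agent.Helper63.Sey2.Goals

/-!
# Packet CHAIN of project SEY2: resampling the colours one after the other
-/

namespace Pool.Agent.Helper67.Sey2

open Pool.Agent.Helper63.Sey2

section Avg

variable {Ω Y : Type} [Fintype Ω]

/-- the fibre of `x` -/
noncomputable def fib (e : Ω → Y) (x : Ω) : Finset Ω := by
  classical exact Finset.univ.filter (fun y => e y = e x)

theorem mem_fib {e : Ω → Y} {x y : Ω} : y ∈ fib e x ↔ e y = e x := by
  classical
  unfold fib
  simp

theorem self_mem_fib (e : Ω → Y) (x : Ω) : x ∈ fib e x := mem_fib.2 rfl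

theorem fib_pos (e : Ω → Y) (x : Ω) : (0 : ℝ) < (fib e x).card := by
  have : 0 < (fib e x).card := Finset.card_pos.2 ⟨x, self_mem_fib e x⟩
  exact_mod_cast this

theorem fib_eq {e : Ω → Y} {x y : Ω} (h : e y = e x) : fib e y = fib e x := by
  ext z
  rw [mem_fib, mem_fib, h]

/-- the average over the fibre -/
noncomputable def avg (e : Ω → Y) (G : Ω → ℝ) (x : Ω) : ℝ :=
  (∑ y ∈ fib e x, G y) / (fib e x).card

theorem sum_avg (e : Ω → Y) (G : Ω → ℝ) : ∑ x, avg e G x = ∑ x, G x := by
  classical
  have h1 : ∀ x, avg e G x = ∑ y, if e y = e x then G y / (fib e y).card else 0 := by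
    intro x
    unfold avg
    rw [Finset.sum_div, ← Finset.sum_filter]
    have : Finset.univ.filter (fun y => e y = e x) = fib e x := by
      ext z
      rw [mem_fib]
      simp
    rw [this]
    refine Finset.sum_congr rfl fun y hy => ?_
    rw [fib_eq (mem_fib.1 hy)]
  simp_rw [h1]
  rw [Finset.sum_comm]
  refine Finset.sum_congr rfl fun y _ => ?_
  rw [← Finset.sum_filter, Finset.sum_const]
  have : (Finset.univ.filter (fun x => e y = e x)) = fib e y := by
    ext z
    rw [mem_fib]
    simp [eq_comm]
  rw [this, nsmul_eq_mul]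
  have := fib_pos e y
  field_simp

theorem avg_le {e : Ω → Y} {G : Ω → ℝ} {x : Ω} {B : ℝ}
    (h : ∑ y ∈ fib e x, G y ≤ B * (fib e x).card) : avg e G x ≤ B := by
  unfold avg
  rw [div_le_iff₀ (fib_pos e x)]
  exact h

end Avg

section Cnt

/-- the number of `c < i` with `P c` -/
noncomputable def cnt {q : ℕ} (P : Fin q → Prop) (i : ℕ) : ℕ := by
  classical exact (Finset.univ.filter (fun c : Fin q => c.val < i ∧ P c)).card

theorem cnt_zero {q : ℕ} (P : Fin q → Prop) : cnt P 0 = 0 := by
  classical
  unfold cnt
  simp

theorem cnt_top {q : ℕ} (P : Fin q → Prop) : cnt P q = Nat.card {c // P c} := by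
  classical
  unfold cnt
  rw [Nat.card_eq_fintype_card, Fintype.card_subtype]
  refine congrArg Finset.card ?_
  ext c
  simp

theorem cnt_congr {q : ℕ} {P P' : Fin q → Prop} {i : ℕ} (h : ∀ c : Fin q, c.val < i → (P c ↔ P' c)) :
    cnt P i = cnt P' i := by
  classical
  unfold cnt
  refine congrArg Finset.card ?_
  ext c
  simp only [Finset.mem_filter, Finset.mem_univ, true_and]
  constructor
  · rintro ⟨h1, h2⟩
    exact ⟨h1, (h c h1).1 h2⟩
  · rintro ⟨h1, h2⟩
    exact ⟨h1, (h c h1).2 h2⟩

theorem cnt_succ_of {q : ℕ} (P : Fin q → Prop) (c : Fin q) (h : P c) :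
    cnt P (c.val + 1) = cnt P c.val + 1 := by
  classical
  unfold cnt
  have : (Finset.univ.filter (fun d : Fin q => d.val < c.val + 1 ∧ P d)) =
      insert c (Finset.univ.filter (fun d : Fin q => d.val < c.val ∧ P d)) := by
    ext d
    simp only [Finset.mem_filter, Finset.mem_univ, true_and, Finset.mem_insert]
    constructor
    · rintro ⟨h1, h2⟩
      rcases Nat.lt_succ_iff_lt_or_eq.1 h1 with h3 | h3
      · exact Or.inr ⟨h3, h2⟩
      · exact Or.inl (Fin.ext h3)
    · rintro (rfl | ⟨h1, h2⟩)
      · exact ⟨Nat.lt_succ_self _, h⟩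
      · exact ⟨Nat.lt_succ_of_lt h1, h2⟩
  rw [this, Finset.card_insert_of_notMem]
  simp

theorem cnt_succ_not {q : ℕ} (P : Fin q → Prop) (c : Fin q) (h : ¬ P c) :
    cnt P (c.val + 1) = cnt P c.val := by
  classical
  unfold cnt
  refine congrArg Finset.card ?_
  ext d
  simp only [Finset.mem_filter, Finset.mem_univ, true_and]
  constructor
  · rintro ⟨h1, h2⟩
    refine ⟨?_, h2⟩
    rcases Nat.lt_succ_iff_lt_or_eq.1 h1 with h3 | h3
    · exact h3
    · exact absurd h2 (by rw [show d = c from Fin.ext h3]; exact h)
  · rintro ⟨h1, h2⟩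
    exact ⟨Nat.lt_succ_of_lt h1, h2⟩

end Cnt

/-- first term -/
noncomputable def fA (q i y : ℕ) : ℝ := (16 : ℝ) ^ y * 2 ^ (q - i) / 4 ^ q

/-- second term -/
noncomputable def fB (q M ℓ w X : ℕ) : ℝ :=
  Real.exp (((w : ℝ) - q / 4) / (2 * M)) * 2 ^ ℓ / 2 ^ X

theorem fA_pos (q i y : ℕ) : 0 < fA q i y := by unfold fA; positivity

theorem fB_pos (q M ℓ w X : ℕ) : 0 < fB q M ℓ w X := by unfold fB; positivity

theorem fA_step {q i : ℕ} (y : ℕ) (h : i < q) : fA q i y = 2 * fA q (i + 1) y := by
  unfold fA
  have : q - i = (q - (i + 1)) + 1 := by omega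
  rw [this, pow_succ]
  ring

theorem fA_y (q i y : ℕ) : fA q i (y + 1) = 16 * fA q i y := by
  unfold fA
  rw [pow_succ]
  ring

theorem fB_X (q M ℓ w X : ℕ) : fB q M ℓ w (X + 1) = fB q M ℓ w X / 2 := by
  unfold fB
  rw [pow_succ]
  field_simp

theorem fB_w (q M ℓ w X : ℕ) :
    fB q M ℓ (w + 1) X = Real.exp (1 / (2 * M)) * fB q M ℓ w X := by
  unfold fB
  have : ((((w + 1 : ℕ) : ℝ)) - q / 4) / (2 * M) = 1 / (2 * M) + ((w : ℝ) - q / 4) / (2 * M) := by
    push_cast
    ring
  rw [this, Real.exp_add]
  ring

theorem goalCHAIN : GoalCHAIN := by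
  classical
  intro Ω Y _ q M ℓ e T E S hM hq hT hES hET hS hZ
  have hMR : (0 : ℝ) < M := by exact_mod_cast hM
  -- the claim
  have main : ∀ i, i ≤ q → ∃ G : Ω → ℝ,
      (∑ x, G x = (Nat.card {x // Nat.card {c // E c x} < ℓ} : ℝ)) ∧
      ∀ x (w y : ℕ), i ≤ w + y + cnt (fun c => ¬ S c x) i →
        G x ≤ fA q i y + fB q M ℓ w (cnt (fun c => E c x) i) := by
    intro i hi
    induction hi using Nat.decreasingInduction with
    | self =>
      refine ⟨fun x => if Nat.card {c // E c x} < ℓ then 1 else 0, ?_, ?_⟩
      · rw [Finset.sum_boole, Nat.card_eq_fintype_card, Fintype.card_subtype]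
      · intro x w y hwy
        have hz := hZ x
        rw [cnt_top] at hwy
        rw [cnt_top]
        by_cases hb : Nat.card {c // E c x} < ℓ
        · simp only [hb, if_true]
          rcases Nat.lt_or_ge (2 * y) q with h2 | h2
          · have hw : q ≤ 4 * w := by omega
            have hB : 1 ≤ fB q M ℓ w (Nat.card {c // E c x}) := by
              unfold fB
              rw [le_div_iff₀ (by positivity), one_mul]
              have h3 : (2 : ℝ) ^ (Nat.card {c // E c x}) ≤ 2 ^ ℓ :=
                pow_le_pow_right₀ (by norm_num) hb.le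
              have h4 : (1 : ℝ) ≤ Real.exp (((w : ℝ) - q / 4) / (2 * M)) := by
                rw [Real.one_le_exp_iff]
                apply div_nonneg _ (by positivity)
                have : (q : ℝ) ≤ 4 * w := by exact_mod_cast hw
                linarith
              have h5 : (0 : ℝ) < 2 ^ ℓ := by positivity
              nlinarith
            have := fA_pos q q y
            linarith
          · have hA : 1 ≤ fA q q y := by
              unfold fA
              rw [le_div_iff₀ (by positivity), one_mul, Nat.sub_self, pow_zero, mul_one]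
              calc (4 : ℝ) ^ q ≤ 4 ^ (2 * y) := pow_le_pow_right₀ (by norm_num) h2
                _ = 16 ^ y := by rw [pow_mul]; norm_num
            have := fB_pos q M ℓ w (Nat.card {c // E c x})
            linarith
        · simp only [hb, if_false]
          have := fA_pos q q y
          have := fB_pos q M ℓ w (Nat.card {c // E c x})
          linarith
    | of_succ i hi ih =>
      obtain ⟨G, hG, hGc⟩ := ih
      have hiq : i < q := hi
      set c : Fin q := ⟨i, hiq⟩ with hc
      refine ⟨avg (e c) G, by rw [sum_avg, hG], ?_⟩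
      intro x w y hwy
      -- facts on the fibre
      have hcE : ∀ x' ∈ fib (e c) x, cnt (fun c => E c x') i = cnt (fun c => E c x) i := by
        intro x' hx'
        rw [mem_fib] at hx'
        apply cnt_congr
        intro d hd
        have hne : c ≠ d := by
          rintro rfl
          exact absurd hd (lt_irrefl _)
        exact ⟨(hES c d x' x hne hx').1, (hES c d x x' hne hx'.symm).1⟩
      have hcS : ∀ x' ∈ fib (e c) x, cnt (fun c => ¬ S c x') i = cnt (fun c => ¬ S c x) i := by
        intro x' hx'
        rw [mem_fib] at hx'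
        apply cnt_congr
        intro d hd
        have hne : c ≠ d := by
          rintro rfl
          exact absurd hd (lt_irrefl _)
        exact not_congr ⟨(hES c d x' x hne hx').2, (hES c d x x' hne hx'.symm).2⟩
      have hEs : ∀ x', E c x' → cnt (fun c => E c x') (i + 1) = cnt (fun c => E c x') i + 1 :=
        fun x' h => cnt_succ_of (fun c => E c x') c h
      have hEn : ∀ x', ¬ E c x' → cnt (fun c => E c x') (i + 1) = cnt (fun c => E c x') i :=
        fun x' h => cnt_succ_not (fun c => E c x') c h
      have hSn : ∀ x', ¬ S c x' →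
          cnt (fun c => ¬ S c x') (i + 1) = cnt (fun c => ¬ S c x') i + 1 :=
        fun x' h => cnt_succ_of (fun c => ¬ S c x') c h
      have hSs : ∀ x', S c x' → cnt (fun c => ¬ S c x') (i + 1) = cnt (fun c => ¬ S c x') i :=
        fun x' h => cnt_succ_not (fun c => ¬ S c x') c (not_not.2 h)
      set F := fib (e c) x with hF
      have hFpos : (0 : ℝ) < F.card := fib_pos (e c) x
      set X := cnt (fun c => E c x) i with hX
      have hcardF : Nat.card {y // e c y = e c x} = F.card := by
        rw [Nat.card_eq_fintype_card, Fintype.card_subtype]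
        refine congrArg Finset.card ?_
        ext z
        rw [hF, mem_fib]
        simp
      apply avg_le
      by_cases hTx : T c x
      · -- tight
        have hcardE : Nat.card {y // e c y = e c x ∧ E c y} = (F.filter (fun z => E c z)).card := by
          rw [Nat.card_eq_fintype_card, Fintype.card_subtype]
          refine congrArg Finset.card ?_
          ext z
          simp only [hF, Finset.mem_filter, Finset.mem_univ, true_and, mem_fib]
        have h1 := hET c x hTx
        rw [hcardF, hcardE] at h1
        have h1R : (F.card : ℝ) ≤ M * (F.filter (fun z => E c z)).card := by exact_mod_cast h1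
        have h2 : ∀ x' ∈ F, G x' ≤ fA q (i + 1) y +
            fB q M ℓ (w + 1) X * (if E c x' then 1 / 2 else 1) := by
          intro x' hx'
          have hz : i + 1 ≤ (w + 1) + y + cnt (fun c => ¬ S c x') (i + 1) := by
            have h3 := hcS x' hx'
            by_cases hs : S c x'
            · rw [hSs x' hs, h3]
              omega
            · rw [hSn x' hs, h3]
              omega
          have h4 := hGc x' (w + 1) y hz
          by_cases he : E c x'
          · rw [hEs x' he, hcE x' hx', fB_X] at h4
            rw [if_pos he]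
            linarith
          · rw [hEn x' he, hcE x' hx'] at h4
            rw [if_neg he]
            linarith
        have h3 : ∑ x' ∈ F, G x' ≤ F.card * fA q (i + 1) y +
            fB q M ℓ (w + 1) X * (F.card - (F.filter (fun z => E c z)).card / 2) := by
          refine (Finset.sum_le_sum h2).trans ?_
          rw [Finset.sum_add_distrib, Finset.sum_const, ← Finset.mul_sum, nsmul_eq_mul]
          have h5 : ∑ x' ∈ F, (if E c x' then (1 / 2 : ℝ) else 1) =
              F.card - (F.filter (fun z => E c z)).card / 2 := by
            have h6 : ∀ x' ∈ F, (if E c x' then (1 / 2 : ℝ) else 1) =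
                1 - (if E c x' then (1 : ℝ) else 0) / 2 := by
              intro x' _
              split_ifs <;> norm_num
            rw [Finset.sum_congr rfl h6, Finset.sum_sub_distrib, Finset.sum_const,
              ← Finset.sum_div, Finset.sum_boole, nsmul_eq_mul, mul_one]
          rw [h5]
        refine h3.trans ?_
        rw [fA_step y hiq, fB_w]
        have hb := fB_pos q M ℓ w X
        have ha := fA_pos q (i + 1) y
        set b := fB q M ℓ w X
        set a := fA q (i + 1) y
        set FE : ℝ := ((F.filter (fun z => E c z)).card : ℝ)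
        have h7 : Real.exp (1 / (2 * M)) * (1 - 1 / (2 * M)) ≤ 1 := by
          have h8 : 1 - 1 / (2 * (M : ℝ)) ≤ Real.exp (-(1 / (2 * M))) := by
            have := Real.add_one_le_exp (-(1 / (2 * (M : ℝ))))
            linarith
          calc Real.exp (1 / (2 * M)) * (1 - 1 / (2 * M))
              ≤ Real.exp (1 / (2 * M)) * Real.exp (-(1 / (2 * M))) :=
                mul_le_mul_of_nonneg_left h8 (Real.exp_pos _).le
            _ = 1 := by rw [← Real.exp_add]; simp
        have h9 : (F.card : ℝ) - FE / 2 ≤ F.card * (1 - 1 / (2 * M)) := by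
          have h10 : (F.card : ℝ) / M ≤ FE := by
            rw [div_le_iff₀ hMR]
            linarith
          have h11 : (F.card : ℝ) * (1 - 1 / (2 * M)) = F.card - (F.card / M) / 2 := by
            field_simp
          rw [h11]
          linarith
        have h12 : Real.exp (1 / (2 * M)) * b * ((F.card : ℝ) - FE / 2) ≤ b * F.card := by
          have h13 : 0 ≤ Real.exp (1 / (2 * (M : ℝ))) * b := by positivity
          calc Real.exp (1 / (2 * M)) * b * ((F.card : ℝ) - FE / 2)
              ≤ Real.exp (1 / (2 * M)) * b * (F.card * (1 - 1 / (2 * M))) :=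
                mul_le_mul_of_nonneg_left h9 h13
            _ = (b * F.card) * (Real.exp (1 / (2 * M)) * (1 - 1 / (2 * M))) := by ring
            _ ≤ (b * F.card) * 1 := mul_le_mul_of_nonneg_left h7 (by positivity)
            _ = b * F.card := mul_one _
        nlinarith [mul_pos hFpos ha]
      · -- not tight
        have hcardS : Nat.card {y // e c y = e c x ∧ S c y} = (F.filter (fun z => S c z)).card := by
          rw [Nat.card_eq_fintype_card, Fintype.card_subtype]
          refine congrArg Finset.card ?_
          ext z
          simp only [hF, Finset.mem_filter, Finset.mem_univ, true_and, mem_fib]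
        have h1 := hS c x hTx
        rw [hcardF, hcardS] at h1
        have h1R : 16 * ((F.filter (fun z => S c z)).card : ℝ) ≤ F.card := by exact_mod_cast h1
        have h2 : ∀ x' ∈ F, G x' ≤ fB q M ℓ w X +
            fA q (i + 1) y * (if S c x' then 16 else 1) := by
          intro x' hx'
          have hBle : fB q M ℓ w (cnt (fun c => E c x') (i + 1)) ≤ fB q M ℓ w X := by
            by_cases he : E c x'
            · rw [hEs x' he, hcE x' hx', fB_X]
              have := fB_pos q M ℓ w X
              linarith
            · rw [hEn x' he, hcE x' hx']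
          have h3 := hcS x' hx'
          by_cases hs : S c x'
          · have hz : i + 1 ≤ w + (y + 1) + cnt (fun c => ¬ S c x') (i + 1) := by
              rw [hSs x' hs, h3]
              omega
            have h4 := hGc x' w (y + 1) hz
            rw [fA_y] at h4
            rw [if_pos hs]
            linarith
          · have hz : i + 1 ≤ w + y + cnt (fun c => ¬ S c x') (i + 1) := by
              rw [hSn x' hs, h3]
              omega
            have h4 := hGc x' w y hz
            rw [if_neg hs]
            linarith
        have h3 : ∑ x' ∈ F, G x' ≤ F.card * fB q M ℓ w X +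
            fA q (i + 1) y * (F.card + 15 * (F.filter (fun z => S c z)).card) := by
          refine (Finset.sum_le_sum h2).trans ?_
          rw [Finset.sum_add_distrib, Finset.sum_const, ← Finset.mul_sum, nsmul_eq_mul]
          have h5 : ∑ x' ∈ F, (if S c x' then (16 : ℝ) else 1) =
              F.card + 15 * (F.filter (fun z => S c z)).card := by
            have h6 : ∀ x' ∈ F, (if S c x' then (16 : ℝ) else 1) =
                1 + 15 * (if S c x' then (1 : ℝ) else 0) := by
              intro x' _
              split_ifs <;> norm_num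
            rw [Finset.sum_congr rfl h6, Finset.sum_add_distrib, Finset.sum_const,
              ← Finset.mul_sum, Finset.sum_boole, nsmul_eq_mul, mul_one]
          rw [h5]
        refine h3.trans ?_
        rw [fA_step y hiq]
        have hb := fB_pos q M ℓ w X
        have ha := fA_pos q (i + 1) y
        set b := fB q M ℓ w X
        set a := fA q (i + 1) y
        set FS : ℝ := ((F.filter (fun z => S c z)).card : ℝ)
        have h7 : a * ((F.card : ℝ) + 15 * FS) ≤ a * (2 * F.card) :=
          mul_le_mul_of_nonneg_left (by linarith) ha.le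
        linarith
  obtain ⟨G, hG, hGc⟩ := main 0 (Nat.zero_le q)
  rw [← hG]
  have h1 : ∀ x, G x ≤ (1 / 2 : ℝ) ^ q + Real.exp (-((q : ℝ) / (16 * M))) := by
    intro x
    have h2 := hGc x 0 0 (Nat.zero_le _)
    rw [cnt_zero] at h2
    have h3 : fA q 0 0 = (1 / 2 : ℝ) ^ q := by
      unfold fA
      rw [pow_zero, one_mul, Nat.sub_zero, ← div_pow]
      norm_num
    have h4 : fB q M ℓ 0 0 ≤ Real.exp (-((q : ℝ) / (16 * M))) := by
      unfold fB
      rw [pow_zero, div_one]
      have h5 : (2 : ℝ) ^ ℓ ≤ Real.exp ((q : ℝ) / (16 * M)) := by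
        have h6 : (2 : ℝ) ≤ Real.exp 1 := by
          have := Real.add_one_le_exp (1 : ℝ)
          linarith
        calc (2 : ℝ) ^ ℓ ≤ Real.exp 1 ^ ℓ := pow_le_pow_left₀ (by norm_num) h6 ℓ
          _ = Real.exp ℓ := by rw [← Real.exp_nat_mul, mul_one]
          _ ≤ Real.exp ((q : ℝ) / (16 * M)) := by
            rw [Real.exp_le_exp, le_div_iff₀ (by positivity)]
            have : ((16 * M * ℓ : ℕ) : ℝ) ≤ q := by exact_mod_cast hq
            push_cast at this
            linarith
      calc Real.exp ((((0 : ℕ) : ℝ) - q / 4) / (2 * M)) * 2 ^ ℓ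
          ≤ Real.exp ((((0 : ℕ) : ℝ) - q / 4) / (2 * M)) * Real.exp ((q : ℝ) / (16 * M)) :=
            mul_le_mul_of_nonneg_left h5 (Real.exp_pos _).le
        _ = Real.exp (-((q : ℝ) / (16 * M))) := by
            rw [← Real.exp_add]
            congr 1
            push_cast
            field_simp
            ring
    rw [h3] at h2
    linarith
  calc ∑ x, G x ≤ ∑ _x : Ω, ((1 / 2 : ℝ) ^ q + Real.exp (-((q : ℝ) / (16 * M)))) :=
        Finset.sum_le_sum fun x _ => h1 x
    _ = ((1 / 2 : ℝ) ^ q + Real.exp (-((q : ℝ) / (16 * M)))) * Fintype.card Ω := by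
        rw [Finset.sum_const, nsmul_eq_mul, Finset.card_univ]
        ring

end Pool.Agent.Helper67.Sey2
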